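import Mathlib
import Pool.Agent.V11128.OddForest

set_option autoImplicit false

/-!
# Odd-regular graphs decompose into at most `n - 1` two-regular subgraphs and single edges
-/

namespace Pool.Agent.Results.MP_b4b0f8_co.OddRegular

/-- A set `F` of edges forms a 2-regular graph (on the vertices incident with its edges): it is
non-empty and every vertex incident with an edge of `F` is incident with exactly two of them. -/
def IsTwoRegular {V : Type*} (F : Set (Sym2 V)) : Prop :=
  F.Nonempty ∧ ∀ v : V, (∃ e ∈ F, v ∈ e) → {e | e ∈ F ∧ v ∈ e}.ncard = 2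

/-- `G` has a decomposition (partition of its edge set) into `m` subgraphs, each of which is a
single edge or 2-regular. -/
def HasDecomposition {V : Type*} (G : SimpleGraph V) (m : ℕ) : Prop :=
  ∃ F : Fin m → Set (Sym2 V), (∀ i, (∃ e, F i = {e}) ∨ IsTwoRegular (F i)) ∧
    (∀ i j, i ≠ j → Disjoint (F i) (F j)) ∧ ⋃ i, F i = G.edgeSet

open Finset Pool.Agent.V11128 in
theorem of_finset {V : Type*} {G : SimpleGraph V} (𝓟 : Finset (Finset (Sym2 V)))
    (h1 : ∀ F ∈ 𝓟, (∃ e, F = {e}) ∨ IsTwoRegular (F : Set (Sym2 V)))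
    (h2 : (𝓟 : Set (Finset (Sym2 V))).PairwiseDisjoint id)
    (h3 : ∀ e, e ∈ G.edgeSet ↔ ∃ F ∈ 𝓟, e ∈ F) : HasDecomposition G 𝓟.card := by
  let q := 𝓟.equivFin.symm
  refine ⟨fun i => ((q i : Finset (Sym2 V)) : Set (Sym2 V)), ?_, ?_, ?_⟩
  · intro i
    rcases h1 _ (q i).2 with ⟨e, he⟩ | h
    · exact Or.inl ⟨e, by
        show ((q i : Finset (Sym2 V)) : Set (Sym2 V)) = {e}
        rw [he]; simp⟩
    · exact Or.inr h
  · intro i j hij
    have hne : (q i : Finset (Sym2 V)) ≠ q j := fun h => hij (q.injective (Subtype.ext h))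
    have := h2 (q i).2 (q j).2 hne
    simp only [Function.onFun, id] at this
    show Disjoint ((q i : Finset (Sym2 V)) : Set (Sym2 V)) ((q j : Finset (Sym2 V)) : Set (Sym2 V))
    exact Finset.disjoint_coe.2 this
  · ext e
    rw [h3, Set.mem_iUnion]
    constructor
    · rintro ⟨i, hi⟩
      exact ⟨_, (q i).2, hi⟩
    · rintro ⟨F, hF, he⟩
      refine ⟨q.symm ⟨F, hF⟩, ?_⟩
      rw [Equiv.apply_symm_apply]
      exact he

/-- Every `(2k+1)`-regular graph on `n ≥ 1` vertices has a decomposition into at most `n - 1`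
subgraphs each of which is a single edge or 2-regular. -/
theorem result {V : Type*} [Fintype V] [Nonempty V] (k : ℕ) (G : SimpleGraph V)
    (hG : ∀ v, (G.neighborSet v).ncard = 2 * k + 1) :
    ∃ m, m ≤ Fintype.card V - 1 ∧ HasDecomposition G m := by
  classical
  have hG' : ∀ v, G.degree v = 2 * k + 1 := by
    intro v
    have h1 : (G.neighborSet v).ncard = G.degree v := by
      rw [Set.ncard_eq_toFinset_card']
      rfl
    rw [← h1, hG v]
  have hdiag : ∀ e ∈ G.edgeFinset, ¬ e.IsDiag := fun e he =>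
    G.not_isDiag_of_mem_edgeSet (SimpleGraph.mem_edgeFinset.1 he)
  have hdgG : ∀ v, Pool.Agent.V11128.dg G.edgeFinset v = 2 * k + 1 := by
    intro v
    have h1 : Pool.Agent.V11128.dg G.edgeFinset v = (G.incidenceFinset v).card := by
      unfold Pool.Agent.V11128.dg
      rw [SimpleGraph.incidenceFinset_eq_filter]
    rw [h1, SimpleGraph.card_incidenceFinset_eq_degree, hG']
  obtain ⟨J, hJE, hJodd, hJc⟩ := Pool.Agent.V11128.exists_join k G hG'
  have hs := Pool.Agent.V11128.dg_sdiff hJE
  obtain ⟨𝓟, h1, h2, h3, h4⟩ := Pool.Agent.V11128.even_decomp k (G.edgeFinset \ J)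
    (fun e he => hdiag e (Finset.mem_sdiff.1 he).1)
    (by
      intro v
      have a1 := hs v
      have a2 := hJodd v
      rw [hdgG] at a1
      rw [Nat.odd_iff] at a2
      rw [Nat.even_iff]
      omega)
    (by
      intro v
      have a1 := hs v
      have a2 := hJodd v
      rw [hdgG] at a1
      rw [Nat.odd_iff] at a2
      omega)
  let 𝓠 : Finset (Finset (Sym2 V)) := 𝓟 ∪ J.image (fun e => {e})
  have hmemP : ∀ F ∈ 𝓟, ∀ e ∈ F, e ∈ G.edgeFinset \ J := by
    intro F hF e he
    rw [← h4]
    exact Finset.mem_biUnion.2 ⟨F, hF, he⟩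
  refine ⟨𝓠.card, ?_, of_finset 𝓠 ?_ ?_ ?_⟩
  · have e1 : 𝓠.card ≤ 𝓟.card + (J.image (fun e => ({e} : Finset (Sym2 V)))).card :=
      Finset.card_union_le _ _
    have e2 : (J.image (fun e => ({e} : Finset (Sym2 V)))).card ≤ J.card := Finset.card_image_le
    omega
  · intro F hF
    rcases Finset.mem_union.1 hF with hF | hF
    · right
      obtain ⟨a1, a2⟩ := h2 F hF
      refine ⟨a1, ?_⟩
      rintro v ⟨e, he, hve⟩
      have a3 : {e | e ∈ (F : Set (Sym2 V)) ∧ v ∈ e} = ((F.filter (fun e => v ∈ e) :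
          Finset (Sym2 V)) : Set (Sym2 V)) := by
        ext e
        simp
      rw [a3, Set.ncard_coe_finset]
      rcases a2 v with h | h
      · unfold Pool.Agent.V11128.dg at h
        rw [Finset.card_eq_zero, Finset.filter_eq_empty_iff] at h
        exact absurd hve (h he)
      · exact h
    · left
      obtain ⟨e, _, rfl⟩ := Finset.mem_image.1 hF
      exact ⟨e, rfl⟩
  · intro F hF F' hF' hne
    simp only [Function.onFun, id]
    rw [Finset.mem_coe] at hF hF'
    rcases Finset.mem_union.1 hF with hF | hF <;> rcases Finset.mem_union.1 hF' with hF' | hF'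
    · exact h3 hF hF' hne
    · obtain ⟨e, he, rfl⟩ := Finset.mem_image.1 hF'
      rw [Finset.disjoint_singleton_right]
      intro h
      exact (Finset.mem_sdiff.1 (hmemP F hF e h)).2 he
    · obtain ⟨e, he, rfl⟩ := Finset.mem_image.1 hF
      rw [Finset.disjoint_singleton_left]
      intro h
      exact (Finset.mem_sdiff.1 (hmemP F' hF' e h)).2 he
    · obtain ⟨e, he, rfl⟩ := Finset.mem_image.1 hF
      obtain ⟨e', he', rfl⟩ := Finset.mem_image.1 hF'
      rw [Finset.disjoint_singleton]
      rintro rfl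
      exact hne rfl
  · intro e
    rw [← SimpleGraph.mem_edgeFinset]
    constructor
    · intro he
      by_cases heJ : e ∈ J
      · exact ⟨{e}, Finset.mem_union_right _ (Finset.mem_image_of_mem _ heJ), by simp⟩
      · have : e ∈ 𝓟.biUnion id := by
          rw [h4]
          exact Finset.mem_sdiff.2 ⟨he, heJ⟩
        obtain ⟨F, hF, heF⟩ := Finset.mem_biUnion.1 this
        exact ⟨F, Finset.mem_union_left _ hF, heF⟩
    · rintro ⟨F, hF, heF⟩
      rcases Finset.mem_union.1 hF with hF | hF
      · exact (Finset.mem_sdiff.1 (hmemP F hF e heF)).1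
      · obtain ⟨e', he', rfl⟩ := Finset.mem_image.1 hF
        rw [Finset.mem_singleton] at heF
        rw [heF]
        exact hJE he'

end Pool.Agent.Results.MP_b4b0f8_co.OddRegular
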